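import Pool.Agent.Lib.MP_b07157_agH3.CThree
import Pool.Agent.Lib.MP_b07157_agO4.GF
import Pool.Agent.Lib.MP_b07157_agF5.Main
import Pool.Agent.Lib.MP_b07157_agD6.Main

/-!
# The strong monodromy conjecture for homogeneous polynomials in three variables
-/

noncomputable section

namespace MPb07157

open MvPolynomial

/-- **The strong monodromy conjecture** (global and local version) for homogeneous polynomials of
degree `d` in three variables: all poles `≠ -3/d`, and also `-3/d` if one of the conditions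
`CondThree` holds. -/
theorem smc_ternary {f : MvPolynomial (Fin 3) ℂ} (hf : f ≠ 0) {d : ℕ} (hd : 0 < d)
    (hh : f.IsHomogeneous d) {s₀ : ℚ} (hs : s₀ < 0) (h : s₀ = -(3 / d) → CondThree f d)
    (hs₀ : IsPole (Zmot f) s₀ ∨ IsPole (Zmot0 f) s₀) :
    IsBernsteinSatoRoot f s₀ ∧ IsLocalBernsteinSatoRoot f s₀ := by
  refine roots_of_form fun b hb => ?_
  have hbg : IsBernsteinSato f b := isBernsteinSato_of_form_homogeneous hh hb
  rcases root_of_pole_three hf hd hh hs hs₀ hbg with h1 | h1
  · rcases h h1 with h2 | h2 | ⟨e, k, m, h2, h3, h4⟩ | h2 | h2 | h2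
    · have h3 := Lct.root_of_lct hd hf hh (by exact_mod_cast h2) hbg
      rw [h1]
      exact_mod_cast h3
    · rw [h1] at hs₀ ⊢
      exact smc_singG hf hd hh h2 hs₀ hbg
    · rw [h1]
      exact Alp.root_three e h2 h3 h4 hbg
    · rw [h1] at hs₀ ⊢
      exact C4.root_of_condPencil hf hd hh h2 hs₀ b hbg
    · exact (D6.smc_le_six hf hd h2 hh hs hs₀).1 b hbg
    · rw [h1] at hs₀ ⊢
      rcases F5.pencil_or_sqhOrd hf hd hh h2 with h3 | h3
      · exact C4.root_of_condPencil hf hd hh h3 hs₀ b hbg
      · exact smc_singG hf hd hh (h3.singG d) hs₀ hbg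
  · exact h1

end MPb07157
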